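import Mathlib

set_option autoImplicit false

/-!
# Baker's constant is at least `log 13 / log 3`

The quadruple `(-1, 2, 3, 0)` is admissible: the equation is `p = 2 q + 3 r`, whose smallest
solution in primes is `13 = 2 * 2 + 3 * 3`.
-/

namespace Pool.Agent.Results.MP_3923f3_nt.BakerLower

/-- admissible quadruples of integers -/
def Admissible (a b c d : ℤ) : Prop :=
  a ≠ 0 ∧ b ≠ 0 ∧ c ≠ 0 ∧ ¬ (0 < a ∧ 0 < b ∧ 0 < c) ∧ ¬ (a < 0 ∧ b < 0 ∧ c < 0) ∧
    Even (a + b + c - d) ∧ Int.gcd (Int.gcd a b) c = 1 ∧ Int.gcd (Int.gcd d a) b = 1 ∧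
    Int.gcd (Int.gcd d a) c = 1 ∧ Int.gcd (Int.gcd d b) c = 1

/-- `m(a, b, c) = max (3, |a|, |b|, |c|)` -/
def mMax (a b c : ℤ) : ℤ := max 3 (max |a| (max |b| |c|))

/-- `μ` is good: for every admissible quadruple the equation `a p + b q + c r = d` has a solution
in primes with `max (p, q, r) ≤ 3 |d| + m(a, b, c) ^ μ` -/
def Good (μ : ℝ) : Prop :=
  ∀ a b c d : ℤ, Admissible a b c d → ∃ p q r : ℕ, p.Prime ∧ q.Prime ∧ r.Prime ∧
    a * p + b * q + c * r = d ∧
    ((max p (max q r) : ℕ) : ℝ) ≤ 3 * |(d : ℝ)| + (mMax a b c : ℝ) ^ μ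

/-- Baker's constant: the infimum of the good real numbers -/
noncomputable def bakerM : ℝ := sInf {μ | Good μ}

lemma min_solution (p q r : ℕ) (hp : p.Prime) (hq : q.Prime) (hr : r.Prime)
    (h : p = 2 * q + 3 * r) : 13 ≤ p := by
  by_contra hlt
  push Not at hlt
  have hq2 := hq.two_le
  have hr2 := hr.two_le
  have hq' : q ≤ 5 := by omega
  have hr' : r ≤ 5 := by omega
  interval_cases q <;> interval_cases r <;> simp at h <;> subst h <;> revert hp <;> norm_num at *

/-- Every good `μ` is at least `log 13 / log 3 = 2.33…`; in particular `M` is not `1`. -/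
theorem result : (∀ μ : ℝ, Good μ → Real.log 13 / Real.log 3 ≤ μ) ∧ bakerM ≠ 1 := by
  have key : ∀ μ : ℝ, Good μ → Real.log 13 / Real.log 3 ≤ μ := by
    intro μ hμ
    obtain ⟨p, q, r, hp, hq, hr, h, hle⟩ := hμ (-1) 2 3 0 (by
      refine ⟨by norm_num, by norm_num, by norm_num, by norm_num, by norm_num, ⟨2, by norm_num⟩,
        by decide, by decide, by decide, by decide⟩)
    have h1 : p = 2 * q + 3 * r := by omega
    have h13 : 13 ≤ p := min_solution p q r hp hq hr h1
    have hm : mMax (-1) 2 3 = 3 := by decide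
    rw [hm] at hle
    have h2 : (13 : ℝ) ≤ (3 : ℝ) ^ μ := by
      have h3 : (p : ℝ) ≤ ((max p (max q r) : ℕ) : ℝ) := by exact_mod_cast le_max_left _ _
      have h4 : (13 : ℝ) ≤ p := by exact_mod_cast h13
      have h5 : 3 * |((0 : ℤ) : ℝ)| + ((3 : ℤ) : ℝ) ^ μ = (3 : ℝ) ^ μ := by simp
      linarith
    have h6 := Real.log_le_log (by norm_num) h2
    rw [Real.log_rpow (by norm_num)] at h6
    have h7 : 0 < Real.log 3 := Real.log_pos (by norm_num)
    rwa [div_le_iff₀ h7]
  refine ⟨key, ?_⟩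
  have h1 : 1 < Real.log 13 / Real.log 3 := by
    rw [lt_div_iff₀ (Real.log_pos (by norm_num)), one_mul]
    exact Real.log_lt_log (by norm_num) (by norm_num)
  rcases Set.eq_empty_or_nonempty {μ | Good μ} with he | hne
  · rw [bakerM, he, Real.sInf_empty]
    norm_num
  · have := le_csInf hne key
    exact ne_of_gt (lt_of_lt_of_le h1 this)

end Pool.Agent.Results.MP_3923f3_nt.BakerLower
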