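import Mathlib

set_option autoImplicit false

/-!
# Baker's constant is larger than `7 / 3`

The equation `p = 2 q + 3 r` (coefficients `1, -2, -3`, right side `0`) has no solution in primes
with `max (p, q, r) < 13`, so every good exponent `μ` satisfies `3 ^ μ ≥ 13`.
-/

namespace Pool.Agent.Results.MP_3923f3_nt.SmallCoefficients

/-- The admissible quadruples of the problem. -/
def Admissible (a b c d : ℤ) : Prop :=
  a ≠ 0 ∧ b ≠ 0 ∧ c ≠ 0 ∧ ¬ (0 < a ∧ 0 < b ∧ 0 < c) ∧ ¬ (a < 0 ∧ b < 0 ∧ c < 0) ∧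
    Even (a + b + c - d) ∧ Int.gcd (Int.gcd a b) c = 1 ∧ Int.gcd (Int.gcd d a) b = 1 ∧
    Int.gcd (Int.gcd d a) c = 1 ∧ Int.gcd (Int.gcd d b) c = 1

/-- `m(a, b, c) = max (3, |a|, |b|, |c|)`. -/
def m (a b c : ℤ) : ℝ := max 3 (max |(a : ℝ)| (max |(b : ℝ)| |(c : ℝ)|))

/-- `μ` is good: every admissible equation has a solution in primes of size at most
`3 |d| + m(a, b, c) ^ μ`. -/
def Good (μ : ℝ) : Prop :=
  ∀ a b c d : ℤ, Admissible a b c d → ∃ p q r : ℕ, p.Prime ∧ q.Prime ∧ r.Prime ∧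
    a * p + b * q + c * r = d ∧
    max (p : ℝ) (max (q : ℝ) (r : ℝ)) ≤ 3 * |(d : ℝ)| + m a b c ^ μ

theorem le_of_good (μ : ℝ) (h : Good μ) : Real.log 13 / Real.log 3 ≤ μ := by
  obtain ⟨p, q, r, hp, hq, hr, he, hle⟩ := h 1 (-2) (-3) 0 (by
    unfold Admissible
    decide)
  have he' : p = 2 * q + 3 * r := by
    have : (p : ℤ) = 2 * q + 3 * r := by linarith
    exact_mod_cast this
  have hm : m 1 (-2) (-3) = 3 := by
    unfold m
    norm_num
  rw [hm] at hle
  have h13 : 13 ≤ p := by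
    have hq2 := hq.two_le
    have hr2 := hr.two_le
    by_contra hlt
    push Not at hlt
    have hq3 : q ≤ 3 := by omega
    have hr3 : r ≤ 2 := by omega
    have hr' : r = 2 := by omega
    subst hr'
    interval_cases q
    · subst he'
      revert hp
      norm_num
    · subst he'
      revert hp
      norm_num
  have h1 : (13 : ℝ) ≤ 3 ^ μ := by
    have : (13 : ℝ) ≤ p := by exact_mod_cast h13
    have h2 := le_max_left (p : ℝ) (max (q : ℝ) (r : ℝ))
    norm_num at hle
    linarith [hle.1]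
  have h3 : (0 : ℝ) < Real.log 3 := Real.log_pos (by norm_num)
  rw [div_le_iff₀ h3]
  have := Real.log_le_log (by norm_num) h1
  rwa [Real.log_rpow (by norm_num)] at this

theorem seven_thirds : (7 : ℝ) / 3 < Real.log 13 / Real.log 3 := by
  have h3 : (0 : ℝ) < Real.log 3 := Real.log_pos (by norm_num)
  rw [lt_div_iff₀ h3]
  have h : Real.log ((3 : ℝ) ^ 7) < Real.log ((13 : ℝ) ^ 3) :=
    Real.log_lt_log (by norm_num) (by norm_num)
  rw [Real.log_pow, Real.log_pow] at h
  push_cast at h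
  linarith

/-- Baker's constant `M` (the infimum of the good exponents, in the extended reals) is at least
`log 13 / log 3 > 7 / 3`; in particular it is not `1`. -/
theorem result :
    ((Real.log 13 / Real.log 3 : ℝ) : EReal) ≤ sInf {x : EReal | ∃ μ : ℝ, Good μ ∧ x = μ} ∧
      (7 : ℝ) / 3 < Real.log 13 / Real.log 3 := by
  refine ⟨le_sInf ?_, seven_thirds⟩
  rintro x ⟨μ, hμ, rfl⟩
  exact EReal.coe_le_coe_iff.2 (le_of_good μ hμ)

end Pool.Agent.Results.MP_3923f3_nt.SmallCoefficients
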